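import Pool.Agent.V11199.ZP.Squares

/-!
MP_d0186b_co: maximum order complexity of the Zeckendorf parity along squares.
-/

namespace Pool.Agent.Results.MP_d0186b_co.SquaresBeat

open Nat Polynomial

/-- The Zeckendorf parity along a polynomial: `s_Z(P(n)) mod 2`. -/
noncomputable def SZP (P : ℤ[X]) (n : ℕ) : ZMod 2 :=
  ((Nat.zeckendorf (P.eval (n : ℤ)).toNat).length : ZMod 2)

/-- Maximum order complexity, with the convention of the problem for constant prefixes. -/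
noncomputable def MOC (s : ℕ → ZMod 2) (N : ℕ) : ℕ :=
  open Classical in
  if ∀ i < N - 1, s i = s 0 then (if s (N-1) = s 0 then 0 else N - 1)
  else sInf {M : ℕ | 0 < M ∧ ∃ f : (Fin M → ZMod 2) → ZMod 2,
    ∀ i : ℕ, i + M < N → s (i + M) = f (fun j : Fin M => s (i + (j : ℕ)))}

open Pool.Agent.V11199.ZP

lemma SZP_sq (n : ℕ) : SZP (X^2) n = ((Nat.zeckendorf (n * n)).length : ZMod 2) := by
  unfold SZP
  have h : ((X^2 : ℤ[X]).eval (n : ℤ)).toNat = n * n := by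
    rw [eval_pow, eval_X, sq]
    have : (n : ℤ) * n = ((n * n : ℕ) : ℤ) := by push_cast; ring
    rw [this, Int.toNat_natCast]
  rw [h]

lemma SZP_eq_iff (n m : ℕ) : SZP (X^2) n = SZP (X^2) m ↔ sg (n*n) = sg (m*m) := by
  rw [SZP_sq, SZP_sq]
  unfold sg
  rw [ZMod.natCast_eq_natCast_iff']
  rw [Nat.mod_two_of_bodd, Nat.mod_two_of_bodd]
  cases (Nat.zeckendorf (n*n)).length.bodd <;> cases (Nat.zeckendorf (m*m)).length.bodd <;> simp

lemma MOC_lower {s : ℕ → ZMod 2} {N i j d : ℕ} (h01 : s 1 ≠ s 0) (hN : 3 ≤ N)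
    (hi : i + d < N) (hj : j + d < N) (h : ∀ t < d, s (i+t) = s (j+t))
    (hne : s (i+d) ≠ s (j+d)) : d + 1 ≤ MOC s N := by
  unfold MOC
  rw [if_neg (by intro hc; exact h01 (hc 1 (by omega)))]
  have hmem : sInf {M : ℕ | 0 < M ∧ ∃ f : (Fin M → ZMod 2) → ZMod 2,
    ∀ i : ℕ, i + M < N → s (i + M) = f (fun j : Fin M => s (i + (j : ℕ)))} ∈
    {M : ℕ | 0 < M ∧ ∃ f : (Fin M → ZMod 2) → ZMod 2,
    ∀ i : ℕ, i + M < N → s (i + M) = f (fun j : Fin M => s (i + (j : ℕ)))} := by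
    apply Nat.sInf_mem
    refine ⟨N, by omega, fun _ => 0, ?_⟩
    intro i hi
    omega
  obtain ⟨_, f, hf⟩ := hmem
  generalize sInf {M : ℕ | 0 < M ∧ ∃ f : (Fin M → ZMod 2) → ZMod 2,
    ∀ i : ℕ, i + M < N → s (i + M) = f (fun j : Fin M => s (i + (j : ℕ)))} = k at *
  by_contra hc
  have hkd : k ≤ d := by omega
  obtain ⟨c, rfl⟩ := Nat.exists_eq_add_of_le' hkd
  apply hne
  have h1 := hf (i + c) (by omega)
  have h2 := hf (j + c) (by omega)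
  rw [← add_assoc, ← add_assoc, h1, h2]
  congr 1
  funext t
  have := h (c + t) (by have := t.2; omega)
  rwa [← add_assoc, ← add_assoc] at this

lemma s01 : SZP (X^2) 1 ≠ SZP (X^2) 0 := by
  intro h
  rw [SZP_eq_iff] at h
  have h1 : sg (fib (0+2) + 0) = !sg 0 := sg_rec (k := 0) (r := 0) (by decide)
  have h2 : sg (1*1) = !sg (0*0) := h1
  rw [h] at h2
  revert h2
  cases sg (0*0) <;> simp

lemma fib_growth (g : ℕ) (hg : 1 ≤ g) : fib (6*g+10) ≤ 7680 * (fib (2*g))^3 := by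
  have dbl : ∀ n, 1 ≤ n → fib (n+1) ≤ 2 * fib n := by
    intro n hn
    obtain ⟨m, rfl⟩ : ∃ m, n = m + 1 := ⟨n-1, by omega⟩
    have h1 : fib (m+2) = fib m + fib (m+1) := Nat.fib_add_two
    have h2 : fib m ≤ fib (m+1) := Nat.fib_mono (by omega)
    show fib (m+2) ≤ _
    omega
  have h1 : fib (2*g+2*g+1) = fib (2*g) * fib (2*g) + fib (2*g+1) * fib (2*g+1) :=
    Nat.fib_add _ _
  have h2 : fib (4*g+2*g+1) = fib (4*g) * fib (2*g) + fib (4*g+1) * fib (2*g+1) :=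
    Nat.fib_add _ _
  have e1 : 2*g+2*g+1 = 4*g+1 := by omega
  have e2 : 4*g+2*g+1 = 6*g+1 := by omega
  rw [e1] at h1
  rw [e2] at h2
  have h3 := dbl (2*g) (by omega)
  have h4 : fib (4*g) ≤ fib (4*g+1) := Nat.fib_mono (by omega)
  set x := fib (2*g) with hx
  have h5 : fib (4*g+1) ≤ 5 * x^2 := by
    rw [h1]; nlinarith
  have h6 : fib (6*g+1) ≤ 15 * x^3 := by
    rw [h2]
    have h7 : fib (4*g) * x ≤ 5 * x^2 * x := Nat.mul_le_mul_right _ (le_trans h4 h5)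
    have h8 : fib (4*g+1) * fib (2*g+1) ≤ 5 * x^2 * (2 * x) := Nat.mul_le_mul h5 h3
    nlinarith
  have d1 := dbl (6*g+1) (by omega)
  have d2 := dbl (6*g+2) (by omega)
  have d3 := dbl (6*g+3) (by omega)
  have d4 := dbl (6*g+4) (by omega)
  have d5 := dbl (6*g+5) (by omega)
  have d6 := dbl (6*g+6) (by omega)
  have d7 := dbl (6*g+7) (by omega)
  have d8 := dbl (6*g+8) (by omega)
  have d9 := dbl (6*g+9) (by omega)
  simp only [add_assoc, Nat.reduceAdd] at d1 d2 d3 d4 d5 d6 d7 d8 d9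
  omega

lemma Lc_mono' (n : ℕ) : Lc (n+1) ≤ Lc (n+2) := by
  rw [Lc_rec]; omega

lemma Lc_mono {a b : ℕ} (ha : 1 ≤ a) (h : a ≤ b) : Lc a ≤ Lc b := by
  obtain ⟨a, rfl⟩ : ∃ a', a = a' + 1 := ⟨a-1, by omega⟩
  obtain ⟨k, rfl⟩ := Nat.exists_eq_add_of_le h
  clear h ha
  induction k with
  | zero => exact le_rfl
  | succ k ih =>
    refine le_trans ih ?_
    have := Lc_mono' (a + k)
    have e1 : a + k + 1 = a + 1 + k := by omega
    have e2 : a + k + 2 = a + 1 + (k+1) := by omega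
    rwa [e1, e2] at this

/-- the main construction -/
lemma main (g : ℕ) (hg : 1 ≤ g) : ∃ N : ℕ, g ≤ N ∧ N ≤ 8000 * (MOC (SZP (X^2)) N)^3 := by
  have hp : Lc (6*g+8) = Lc (6*g+6) + Lc (6*g+7) := by
    have := Lc_rec (6*g+6)
    rw [this]
    show Lc (6*g+7) + Lc (6*g+6) = _
    omega
  have hex : ∃ t, SZP (X^2) (Lc (6*g+6) + t) ≠ SZP (X^2) (Lc (6*g+8) + t) := by
    obtain ⟨m1, m2⟩ := mismatch (a := 3*g+3) (by omega)
    have e1 : 2*(3*g+3)+1 = 6*g+7 := by ring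
    rw [e1] at m1 m2
    have hle : Lc (6*g+6) ≤ Lc (3*(6*g+7)+7) := Lc_mono (by omega) (by omega)
    refine ⟨Lc (3*(6*g+7)+7) - Lc (6*g+6), ?_⟩
    intro hc
    rw [SZP_eq_iff] at hc
    have e2 : Lc (6*g+6) + (Lc (3*(6*g+7)+7) - Lc (6*g+6)) = Lc (3*(6*g+7)+7) := by omega
    have e3 : Lc (6*g+8) + (Lc (3*(6*g+7)+7) - Lc (6*g+6)) =
        Lc (3*(6*g+7)+7) + Lc (6*g+7) := by omega
    rw [e2, e3, m1, m2] at hc
    exact absurd hc (by simp)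
  classical
  have h1 := Nat.find_spec hex
  have h2 : ∀ t < Nat.find hex, SZP (X^2) (Lc (6*g+6) + t) = SZP (X^2) (Lc (6*g+8) + t) := by
    intro t ht
    exact not_not.1 (Nat.find_min hex ht)
  have h3 : fib (2*g) ≤ Nat.find hex := by
    by_contra hc
    apply h1
    rw [SZP_eq_iff]
    exact window hg (by omega)
  generalize Nat.find hex = T at *
  have hLpos : 5 ≤ Lc (6*g+8) := by
    have h4 := (Lc_eq (6*g+7)).1
    have h5 : fib 5 ≤ fib (6*g+7+2) := Nat.fib_mono (by omega)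
    have h6 : fib 5 = 5 := rfl
    have e : 6*g+7+1 = 6*g+8 := by omega
    rw [e] at h4
    omega
  refine ⟨Lc (6*g+8) + T + 1, ?_, ?_⟩
  · have h4 := (Lc_eq (6*g+7)).1
    have e : 6*g+7+1 = 6*g+8 := by omega
    rw [e] at h4
    have h5 : 6*g+7+2 ≤ fib (6*g+7+2) := Nat.le_fib_self (by omega)
    omega
  · have hM : T + 1 ≤ MOC (SZP (X^2)) (Lc (6*g+8) + T + 1) := by
      refine MOC_lower s01 (by omega) (i := Lc (6*g+6)) (j := Lc (6*g+8)) (d := T)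
        (by omega) (by omega) h2 h1
    have h4 : Lc (6*g+8) ≤ 7680 * (fib (2*g))^3 :=
      le_trans (Lc_le_fib (6*g+7)) (fib_growth g hg)
    have h5 : (fib (2*g))^3 ≤ (T+1)^3 := Nat.pow_le_pow_left (by omega) 3
    have h6 : (T+1)^3 ≤ (MOC (SZP (X^2)) (Lc (6*g+8) + T + 1))^3 := Nat.pow_le_pow_left hM 3
    have h7 : T + 1 ≤ (T+1)^3 := by
      calc T + 1 = (T+1)^1 := (pow_one _).symm
        _ ≤ (T+1)^3 := Nat.pow_le_pow_right (by omega) (by omega)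
    omega

/-- Real form: `M(N) ≥ N^{1/3}/20` for infinitely many `N`. -/
lemma main_real (N0 : ℕ) : ∃ N : ℕ, N0 ≤ N ∧
    (1/20 : ℝ) * (N : ℝ)^((1:ℝ)/3) ≤ (MOC (SZP (X^2)) N : ℝ) := by
  obtain ⟨N, h1, h2⟩ := main (N0+1) (by omega)
  refine ⟨N, by omega, ?_⟩
  have h3 : (N : ℝ) ≤ (20 * (MOC (SZP (X^2)) N : ℝ))^3 := by
    have : (N : ℝ) ≤ 8000 * (MOC (SZP (X^2)) N : ℝ)^3 := by exact_mod_cast h2
    calc (N : ℝ) ≤ _ := this
      _ = _ := by ring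
  have h4 : (N : ℝ)^((1:ℝ)/3) ≤ 20 * (MOC (SZP (X^2)) N : ℝ) := by
    have h5 : (N : ℝ)^((1:ℝ)/3) ≤ ((20 * (MOC (SZP (X^2)) N : ℝ))^3)^((1:ℝ)/3) :=
      Real.rpow_le_rpow (by positivity) h3 (by norm_num)
    rw [← Real.rpow_natCast, ← Real.rpow_mul (by positivity)] at h5
    norm_num at h5
    exact h5
  linarith

/-- **Disproof of Q1 of MP_d0186b_co.** -/
theorem result :
    (∀ N0 : ℕ, ∃ N : ℕ, N0 ≤ N ∧
      (1/20 : ℝ) * (N : ℝ)^((1:ℝ)/3) ≤ (MOC (SZP (X^2)) N : ℝ)) ∧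
    ¬ (∀ P : ℤ[X], P.Monic → 2 ≤ P.natDegree → (∀ n : ℕ, 0 ≤ P.eval (n : ℤ)) →
      ∃ c C : ℝ, 0 < c ∧ 0 < C ∧ ∃ N0 : ℕ, ∀ N : ℕ, N0 ≤ N →
        c * (N : ℝ)^((1:ℝ) / (2 * P.natDegree)) ≤ (MOC (SZP P) N : ℝ) ∧
        (MOC (SZP P) N : ℝ) ≤ C * (N : ℝ)^((1:ℝ) / (2 * P.natDegree))) := by
  refine ⟨main_real, ?_⟩
  intro hall
  obtain ⟨c, C, hc, hC, N0, hN⟩ := hall (X^2) (monic_X_pow 2) (by rw [natDegree_X_pow])
    (by intro n; rw [eval_pow, eval_X]; positivity)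
  have hC' : 0 ≤ (20 * C)^12 := by positivity
  obtain ⟨K, hK⟩ := exists_nat_gt ((20 * C)^12)
  obtain ⟨N, h1, h2⟩ := main_real (max N0 (K+1))
  have h3 := (hN N (le_trans (le_max_left _ _) h1)).2
  have h4 : K + 1 ≤ N := le_trans (le_max_right _ _) h1
  rw [natDegree_X_pow] at h3
  have e1 : (1:ℝ) / (2 * ((2:ℕ):ℝ)) = 1/4 := by norm_num
  rw [e1] at h3
  have hNpos : (0:ℝ) < N := by
    have : 0 < N := by omega
    exact_mod_cast this
  set y : ℝ := (N : ℝ)^((1:ℝ)/12) with hy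
  have hy0 : 0 < y := Real.rpow_pos_of_pos hNpos _
  have y3 : (N : ℝ)^((1:ℝ)/4) = y^3 := by
    rw [hy, ← Real.rpow_natCast, ← Real.rpow_mul hNpos.le]; norm_num
  have y4 : (N : ℝ)^((1:ℝ)/3) = y^4 := by
    rw [hy, ← Real.rpow_natCast, ← Real.rpow_mul hNpos.le]; norm_num
  have y12 : (N : ℝ) = y^12 := by
    rw [hy, ← Real.rpow_natCast, ← Real.rpow_mul hNpos.le]; norm_num
  rw [y3] at h3
  rw [y4] at h2
  have h5 : y^3 * y ≤ y^3 * (20 * C) := by nlinarith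
  have h6 : y ≤ 20 * C := le_of_mul_le_mul_left h5 (by positivity)
  have h7 : y^12 ≤ (20*C)^12 := pow_le_pow_left₀ hy0.le h6 12
  rw [← y12] at h7
  have h8 : (K : ℝ) < N := by
    have : K < N := by omega
    exact_mod_cast this
  linarith

end Pool.Agent.Results.MP_d0186b_co.SquaresBeat
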